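import Pool.Agent.Lib_helper75.BVM.CohenAlgebra

/-!
# A nontrivial automorphism of `P(ω₁)` modulo countable sets

We construct a model of ZFC in which the Boolean algebra of the subsets of `ω₁` modulo the ideal of
the countable sets has a nontrivial automorphism. The model is a quotient of the Boolean-valued
universe for the algebra of the regular open sets of the Cantor cube `2 ^ ω₁`, which adds `ω₁`
Cohen reals. Let `σ_δ` be the automorphism of the algebra that flips the coordinate `δ`. The
automorphism takes the class of the set with the name `A` to the class of the set
`{δ | δ ∈ σ_δ(A)}`. It is well defined because, by the countable chain condition, each element of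
the algebra is fixed by all but countably many `σ_δ`. It fixes the classes of the sets in the
ground model, but it takes the set `{δ | x δ = 1}`, where `x` is the generic point of the cube, to
its complement, so it is not trivial.
-/

set_option autoImplicit false

namespace Pool.Agent.Results.MP_8fa3e4_lc.CohenAutomorphism

open Pool.Agent.BVM Cardinal

/-- The ground model version of `ω₁`. -/
abbrev W : Type := (ℵ₁ : Cardinal.{0}).ord.ToType

theorem countable_below (w : W) : Countable {v : W // v < w} := by
  have h := Cardinal.mk_Iio_toType_ord_lt w
  have h2 : (Set.Iio w).Countable := (Cardinal.countable_iff_lt_aleph_one _).mpr h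
  exact h2.to_subtype

theorem uncountable_W : Uncountable W := by
  rw [← Cardinal.aleph0_lt_mk_iff, Cardinal.mk_ord_toType]
  exact Cardinal.aleph0_lt_aleph_one

theorem exists_reals : ∃ ι : W → ℕ → Bool, Function.Injective ι := by
  have h : #W ≤ #(ℕ → Bool) := by
    rw [Cardinal.mk_ord_toType]
    refine Cardinal.aleph_one_le_continuum.trans (le_of_eq ?_)
    simp
  obtain ⟨f⟩ := h
  exact ⟨f, f.injective⟩

/-- There is a model of ZFC in which the Boolean algebra of all the subsets of the first
uncountable cardinal modulo countable sets has a nontrivial automorphism. -/
theorem result : ∃ (M : Type 1) (E : M → M → Prop), ModelZFC E ∧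
    ∃ L : M, IsCard E L ∧ ¬ IsCountable E L ∧ (∀ y, E y L → IsCountable E y) ∧
      ∃ π : M, IsAutomorphism E L π ∧ ¬ IsTrivial E L π := by
  obtain ⟨ι, hι⟩ := exists_reals
  obtain ⟨U⟩ := exists_uf W
  have := uncountable_W
  let F := cubeAlgebra hι
  exact ⟨Mod U, Emem U, modelZFC U, cls U (BSet.oT _ W), F.ccc.isCard_oT countable_below U,
    F.ccc.not_isCountable_oT U, isCountable_of_mem_oT countable_below U,
    cls U F.piN, F.isAutomorphism U, F.not_isTrivial ι hι U⟩

end Pool.Agent.Results.MP_8fa3e4_lc.CohenAutomorphism
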